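import Pool.Agent.Helper36.KZ.Play

/-!
Project KZ (MP_0aa406_nt), module KZ-5: the claim. Statement of the spec of helper77; the lemma
`nested` (KZ-2) enters as a hypothesis of `claim_of_nested`.
-/

set_option autoImplicit false

namespace Pool.Agent.Helper46.KZ

open Finset Pool.Agent.Helper77.KZ
open scoped Pointwise

variable {n : ℕ}

theorem rest_subset (g : ZMod n → ℤ) (U : Finset (ZMod n)) (s : ZMod n) : rest g U s ⊆ U :=
  Finset.filter_subset _ _

theorem rest_ssubset {g : ZMod n → ℤ} {U : Finset (ZMod n)} {s : ZMod n} (h : Meets g U s) :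
    rest g U s ⊂ U := by
  refine (rest_subset g U s).ssubset_of_ne ?_
  intro he
  obtain ⟨l, hl, hgl⟩ := h
  rw [← he] at hl
  unfold rest at hl
  exact hgl (Finset.mem_filter.mp hl).2

theorem stuck_empty (g : ZMod n → ℤ) : Stuck g ∅ := by
  intro s hs
  obtain ⟨l, hl, -⟩ := hs
  exact absurd hl (Finset.notMem_empty l)

theorem claim_of_nested [NeZero n] {g : ZMod n → ℤ} (hg : IsSign g)
    (nested : ∀ {A U : Finset (ZMod n)}, A ⊆ U → Stuck g A → Stuck g U →
      (∀ s, ∀ a ∈ A, ∀ d ∈ U \ A, g (s - a) ≠ 0 → g (s - d) ≠ 0 → False) ∧ Stuck g (U \ A))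
    (L : ℕ) (hL : 0 < L)
    (hat : ∀ Y, Atom g Y → Odd Y.card → (Y + TT g).card < L → (∀ X, X ⊂ Y → Val g X 0) →
      Val g Y 0) (U : Finset (ZMod n)) :
    ∃ A ⊆ U, Stuck g A ∧ ∃ q : ℕ, Val g U (-(q : ℤ)) ∧ L * q ≤ (A + TT g).card := by
  induction hk : U.card using Nat.strong_induction_on generalizing U with
  | _ k ih =>
  have ih' : ∀ X, X ⊂ U → ∃ A ⊆ X, Stuck g A ∧ ∃ q : ℕ, Val g X (-(q : ℤ)) ∧
      L * q ≤ (A + TT g).card := fun X hX =>
    ih X.card (by rw [← hk]; exact Finset.card_lt_card hX) X rfl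
  by_cases hst : Stuck g U
  swap
  · -- not stuck
    unfold Stuck at hst
    push Not at hst
    obtain ⟨s, hs, hne⟩ := hst
    obtain ⟨A, hA, hAs, q, hq, hc⟩ := ih' _ (rest_ssubset hs)
    refine ⟨A, hA.trans (rest_subset g U s), hAs, q, ?_, hc⟩
    refine Val.mono (Val.step s hq) ?_
    have h1 : 1 ≤ |EE g U s - 1| := Int.one_le_abs (sub_ne_zero.mpr hne)
    linarith
  rcases U.eq_empty_or_nonempty with hU | hU
  · refine ⟨∅, Finset.empty_subset _, stuck_empty g, 0, ?_, by simp⟩
    rw [hU]
    simpa using Val.nil g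
  by_cases hat' : Atom g U
  swap
  · -- stuck, not an atom
    have h1 : ∃ A ⊆ U, A.Nonempty ∧ Stuck g A ∧ A ≠ U := by
      by_contra hcon
      push Not at hcon
      exact hat' ⟨hU, hst, fun A hA hne hs => hcon A hA hne hs⟩
    obtain ⟨A, hA, hAne, hAs, hAU⟩ := h1
    obtain ⟨hrow, hDs⟩ := nested hA hAs hst
    have hAss : A ⊂ U := hA.ssubset_of_ne hAU
    have hDss : U \ A ⊂ U := by
      refine (Finset.sdiff_subset).ssubset_of_ne ?_
      intro he
      obtain ⟨a, ha⟩ := hAne
      have h2 : a ∈ U \ A := by rw [he]; exact hA ha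
      exact (Finset.mem_sdiff.mp h2).2 ha
    obtain ⟨A1, hA1, -, q1, hq1, hc1⟩ := ih' A hAss
    obtain ⟨A2, hA2, -, q2, hq2, hc2⟩ := ih' (U \ A) hDss
    refine ⟨U, subset_rfl, hst, q1 + q2, ?_, ?_⟩
    · have h3 := Val.union (disjoint_sdiff : Disjoint A (U \ A)) hrow hq1 hq2
      rw [Finset.union_sdiff_of_subset hA] at h3
      push_cast
      refine Val.mono h3 ?_
      linarith
    · have hdis : Disjoint (A1 + TT g) (A2 + TT g) := by
        rw [Finset.disjoint_left]
        intro x hx1 hx2
        rw [Finset.mem_add] at hx1 hx2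
        obtain ⟨a, ha, t, ht, hat1⟩ := hx1
        obtain ⟨d, hd, t', ht', hdt⟩ := hx2
        unfold TT at ht ht'
        rw [Finset.mem_filter] at ht ht'
        refine hrow x a (hA1 ha) d (hA2 hd) ?_ ?_
        · rw [← hat1, add_sub_cancel_left]
          exact ht.2
        · rw [← hdt, add_sub_cancel_left]
          exact ht'.2
      have hsub : (A1 + TT g) ∪ (A2 + TT g) ⊆ U + TT g := by
        refine Finset.union_subset ?_ ?_
        · exact Finset.add_subset_add_right (hA1.trans hA)
        · exact Finset.add_subset_add_right (hA2.trans Finset.sdiff_subset)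
      have h4 := Finset.card_le_card hsub
      rw [Finset.card_union_of_disjoint hdis] at h4
      rw [mul_add]
      linarith
  -- atom
  have hsub : ∀ X, X ⊂ U → Val g X 0 := by
    intro X hX
    obtain ⟨A, hA, hAs, q, hq, hc⟩ := ih' X hX
    have hA0 : A = ∅ := by
      by_contra hne
      have h5 := hat'.2.2 A (hA.trans hX.subset) (Finset.nonempty_iff_ne_empty.mpr hne) hAs
      rw [h5] at hA
      exact hX.2 hA
    rw [hA0] at hc
    simp only [Finset.empty_add, Finset.card_empty, Nat.le_zero_eq, Nat.mul_eq_zero] at hc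
    have hq0 : q = 0 := by omega
    rw [hq0] at hq
    simpa using hq
  rcases Nat.even_or_odd U.card with heven | hodd
  · -- even atoms
    obtain ⟨a, ha⟩ := hU
    have hcard : 2 ≤ U.card := by
      have h6 : 0 < U.card := Finset.card_pos.mpr ⟨a, ha⟩
      obtain ⟨r, hr⟩ := heven
      omega
    have h7 : ¬ Stuck g {a} := by
      intro h8
      have h9 := hat'.2.2 {a} (by simpa using ha) (Finset.singleton_nonempty a) h8
      rw [← h9] at hcard
      simp at hcard
    unfold Stuck at h7
    push Not at h7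
    obtain ⟨s, hs, -⟩ := h7
    have hsU : Meets g U s := by
      obtain ⟨l, hl, hgl⟩ := hs
      rw [Finset.mem_singleton] at hl
      exact ⟨l, by rw [hl]; exact ha, hgl⟩
    have hE := hst s hsU
    have hr0 := hsub _ (rest_ssubset hsU)
    have hpar := EE_parity hg U s
    have hcr := card_cov_add_rest g U s
    rw [hE] at hpar
    have hr1 := Val.improve hg hr0 (by
      intro hmod
      obtain ⟨r, hr⟩ := heven
      unfold Int.ModEq at hmod hpar
      omega)
    have h10 := Val.step s hr1
    rw [hE] at h10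
    refine ⟨∅, Finset.empty_subset _, stuck_empty g, 0, ?_, by simp⟩
    simpa using h10
  · by_cases hlt : (U + TT g).card < L
    · refine ⟨∅, Finset.empty_subset _, stuck_empty g, 0, ?_, by simp⟩
      simpa using hat U hat' hodd hlt hsub
    · push Not at hlt
      have hT : (TT g).Nonempty := by
        rw [Finset.nonempty_iff_ne_empty]
        intro h0
        rw [h0] at hlt
        simp only [Finset.add_empty, Finset.card_empty, Nat.le_zero_eq] at hlt
        omega
      obtain ⟨t, ht⟩ := hT
      obtain ⟨a, ha⟩ := hU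
      unfold TT at ht
      rw [Finset.mem_filter] at ht
      have hsU : Meets g U (a + t) := ⟨a, ha, by rw [add_sub_cancel_left]; exact ht.2⟩
      have hE := hst _ hsU
      have h10 := Val.step _ (hsub _ (rest_ssubset hsU))
      rw [hE] at h10
      refine ⟨U, subset_rfl, hst, 1, ?_, by simpa using hlt⟩
      simpa using h10

end Pool.Agent.Helper46.KZ
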